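import Pool.Agent.Lib.MP_3a84e0_co.Van

open Finset Function ComplexConjugate
open scoped BigOperators

noncomputable section

namespace Pool.Agent.Lib.MP_3a84e0_co

variable {U V W : Type} [AddCommGroup U] [AddCommGroup V] [AddCommGroup W]
  [Fintype U] [Fintype V] [Fintype W]

lemma sq_expect_le {ι : Type} [Fintype ι] [Nonempty ι] (a : ι → ℝ) :
    (𝔼 i, a i) ^ 2 ≤ 𝔼 i, a i ^ 2 := by
  simpa using expect_mul_sq_le_sq_mul_sq univ a fun _ => 1

lemma pow_expect_le {ι : Type} [Fintype ι] [Nonempty ι] {a : ι → ℝ} (ha : ∀ i, 0 ≤ a i) (k : ℕ) :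
    (𝔼 i, a i) ^ 2 ^ k ≤ 𝔼 i, a i ^ 2 ^ k := by
  induction k with
  | zero => simp
  | succ k ih =>
    simp only [pow_succ, pow_mul]
    exact (pow_le_pow_left₀ (pow_nonneg (expect_nonneg fun i _ => ha i) _) ih 2).trans
      (by simpa [pow_succ] using sq_expect_le fun i => a i ^ 2 ^ k)

lemma expect_shift {M : Type} [AddCommMonoid M] [Module ℚ≥0 M] (f : V → M) (t : V) :
    𝔼 x, f (x + t) = 𝔼 x, f x := Fintype.expect_equiv (Equiv.addRight t) _ _ fun _ => rfl

lemma expect_shift' {M : Type} [AddCommMonoid M] [Module ℚ≥0 M] (f : V → M) (t : V) :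
    𝔼 x, f (t + x) = 𝔼 x, f x := Fintype.expect_equiv (Equiv.addLeft t) _ _ fun _ => rfl

lemma expect_prod {M α β : Type} [AddCommMonoid M] [Module ℚ≥0 M] [Fintype α] [Fintype β]
    (f : α × β → M) : 𝔼 z, f z = 𝔼 a, 𝔼 b, f (a, b) := by
  rw [← univ_product_univ, expect_product]

lemma expect_cons {M α : Type} [AddCommMonoid M] [Module ℚ≥0 M] [Fintype α] {k : ℕ}
    (f : (Fin (k + 1) → α) → M) : 𝔼 h, f h = 𝔼 a, 𝔼 t : Fin k → α, f (Fin.cons a t) := by
  rw [← expect_prod fun z : α × (Fin k → α) => f (Fin.cons z.1 z.2)]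
  exact (Fintype.expect_equiv (Fin.consEquiv fun _ => α) _ _ fun _ => rfl).symm

lemma conj_expect {ι : Type} [Fintype ι] (f : ι → ℂ) : conj (𝔼 i, f i) = 𝔼 i, conj (f i) := by
  simp [Fintype.expect_eq_sum_div_card]

lemma norm_expect_le_one {ι : Type} [Fintype ι] [Nonempty ι] {f : ι → ℂ} (hf : ∀ i, ‖f i‖ ≤ 1) :
    ‖𝔼 i, f i‖ ≤ 1 :=
  (RCLike.norm_expect_le (K := ℂ)).trans (expect_le univ_nonempty fun i _ => hf i)

/-- Multiplicative difference. -/
def md (h : V) (f : V → ℂ) : V → ℂ := fun x => f x * conj (f (x + h))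

lemma md_le {f : V → ℂ} (hf : ∀ x, ‖f x‖ ≤ 1) (h x : V) : ‖md h f x‖ ≤ 1 := by
  rw [md, norm_mul, RCLike.norm_conj]
  exact mul_le_one₀ (hf _) (norm_nonneg _) (hf _)

lemma normSq_expect (f : V → ℂ) : ((‖𝔼 x, f x‖ ^ 2 : ℝ) : ℂ) = 𝔼 t, 𝔼 x, md t f x := by
  rw [expect_comm, Complex.ofReal_pow, ← Complex.mul_conj', conj_expect, expect_mul]
  refine expect_congr rfl fun x _ => ?_
  rw [← expect_shift' (fun y => conj (f y)) x, mul_expect]
  rfl

/-- `gw j f` is the `2 ^ (j + 1)`-th power of the `U ^ (j + 1)` norm. -/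
def gw : ℕ → (V → ℂ) → ℝ
  | 0, f => ‖𝔼 x, f x‖ ^ 2
  | j + 1, f => 𝔼 t, gw j (md t f)

lemma gw_nonneg (j : ℕ) (f : V → ℂ) : 0 ≤ gw j f := by
  induction j generalizing f with
  | zero => exact sq_nonneg _
  | succ j ih => exact expect_nonneg fun t _ => ih _

lemma gw_shift (j : ℕ) (f : V → ℂ) (h : V) : gw j (fun x => conj (f (x + h))) = gw j f := by
  induction j generalizing f with
  | zero => simp only [gw]; rw [← conj_expect, RCLike.norm_conj, expect_shift]
  | succ j ih =>
    refine expect_congr rfl fun t _ => ?_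
    rw [← ih (md t f)]
    congr 1
    ext x
    simp [md, add_right_comm]

lemma gw_mul (j : ℕ) (g : V → ℂ) {b : V → ℂ} (hb : ∀ x, ‖b x‖ ≤ 1) :
    (𝔼 h, gw j fun x => g x * b (x + h)) ^ 2 ≤ gw (j + 1) g := by
  induction j generalizing g b with
  | zero =>
    have h1 : ((𝔼 h, gw 0 fun x => g x * b (x + h) : ℝ) : ℂ) =
        𝔼 t, (𝔼 x, md t g x) * 𝔼 y, md t b y := by
      simp only [gw, Complex.ofReal_expect, normSq_expect]
      rw [expect_comm]
      refine expect_congr rfl fun t _ => ?_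
      rw [expect_comm, expect_mul]
      refine expect_congr rfl fun x _ => ?_
      rw [← expect_shift' (md t b) x, mul_expect]
      refine expect_congr rfl fun h _ => ?_
      simp [md, add_right_comm x t]
      ring
    have h2 : (𝔼 h, gw 0 fun x => g x * b (x + h)) ≤ 𝔼 t, ‖𝔼 x, md t g x‖ := by
      refine (Real.le_norm_self _).trans ?_
      rw [← Complex.norm_real, h1]
      refine (RCLike.norm_expect_le (K := ℂ)).trans (expect_le_expect fun t _ => ?_)
      rw [norm_mul]
      exact mul_le_of_le_one_right (norm_nonneg _) (norm_expect_le_one (md_le hb t))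
    exact (pow_le_pow_left₀ (expect_nonneg fun _ _ => gw_nonneg _ _) h2 2).trans (sq_expect_le _)
  | succ j ih =>
    have h1 : (𝔼 h, gw (j + 1) fun x => g x * b (x + h)) =
        𝔼 t, 𝔼 h, gw j fun x => md t g x * md t b (x + h) := by
      simp only [gw]
      rw [expect_comm]
      refine expect_congr rfl fun t _ => expect_congr rfl fun h _ => ?_
      congr 1
      ext x
      simp [md, add_right_comm x t]
      ring
    rw [h1]
    exact (sq_expect_le _).trans (expect_le_expect fun t _ => ih _ (md_le hb t))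

lemma gw_sq_le (j : ℕ) (g : V → ℂ) : gw j g ^ 2 ≤ gw (j + 1) g := by
  simpa using gw_mul j g (b := fun _ => 1) (by simp)

lemma gw_pow_le (j m : ℕ) (g : V → ℂ) : gw j g ^ 2 ^ m ≤ gw (j + m) g := by
  induction m with
  | zero => simp
  | succ m ih =>
    rw [pow_succ, pow_mul]
    exact (pow_le_pow_left₀ (pow_nonneg (gw_nonneg _ _) _) ih 2).trans (gw_sq_le _ _)

/-- The dual function. -/
def dual : ℕ → (V → ℂ) → V → ℂ
  | 0, _ => fun _ => 1
  | j + 1, f => fun x => 𝔼 h, conj (f (x + h)) * dual j (md h f) x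

lemma dual_le (j : ℕ) {f : V → ℂ} (hf : ∀ x, ‖f x‖ ≤ 1) (x : V) : ‖dual j f x‖ ≤ 1 := by
  induction j generalizing f with
  | zero => simp [dual]
  | succ j ih =>
    refine norm_expect_le_one fun h => ?_
    rw [norm_mul, RCLike.norm_conj]
    exact mul_le_one₀ (hf _) (norm_nonneg _) (ih (md_le hf h))

/-- Pairing with the dual function. -/
def lam (j : ℕ) (g f : V → ℂ) : ℂ := 𝔼 x, g x * dual j f x

lemma lam_succ (j : ℕ) (g f : V → ℂ) :
    lam (j + 1) g f = 𝔼 h, lam j (fun x => g x * conj (f (x + h))) (md h f) := by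
  simp only [lam, dual, mul_expect, mul_assoc]
  exact expect_comm _ _ _

lemma lam_self (j : ℕ) (f : V → ℂ) : lam (j + 1) f f = gw j f := by
  induction j generalizing f with
  | zero => simp only [gw, normSq_expect, lam_succ]; simp [lam, dual, md]
  | succ j ih =>
    rw [lam_succ, gw, Complex.ofReal_expect]
    exact expect_congr rfl fun h _ => ih _

lemma lam_le (j : ℕ) (g : V → ℂ) {f : V → ℂ} (hf : ∀ x, ‖f x‖ ≤ 1) :
    ‖lam (j + 1) g f‖ ^ 2 ^ (j + 1) ≤ gw j g := by
  induction j generalizing g f with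
  | zero =>
    have : lam 1 g f = (𝔼 x, g x) * 𝔼 y, conj (f y) := by
      simp only [lam, dual, mul_one, expect_shift' fun y => conj (f y), expect_mul]
    rw [zero_add, this, norm_mul, pow_one, gw]
    gcongr
    exact mul_le_of_le_one_right (norm_nonneg _) (norm_expect_le_one fun i => by simpa using hf i)
  | succ j ih =>
    rw [lam_succ, pow_succ, pow_mul]
    refine le_trans (pow_le_pow_left₀ (by positivity) ?_ 2)
      (gw_mul j g (b := fun y => conj (f y)) fun i => by simpa using hf i)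
    refine (pow_le_pow_left₀ (norm_nonneg _) (RCLike.norm_expect_le (K := ℂ)) _).trans ?_
    exact (pow_expect_le (fun _ => norm_nonneg _) _).trans
      (expect_le_expect fun h _ => ih _ (md_le hf h))

lemma lam_one_le (j : ℕ) {f : V → ℂ} (hf : ∀ x, ‖f x‖ ≤ 1) :
    ‖lam (j + 2) (fun _ => 1) f‖ ^ 2 ^ (j + 1) ≤ gw j f := by
  rw [lam_succ]
  refine (pow_le_pow_left₀ (norm_nonneg _) (RCLike.norm_expect_le (K := ℂ)) _).trans ?_
  refine (pow_expect_le (fun _ => norm_nonneg _) _).trans (expect_le univ_nonempty fun h _ => ?_)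
  refine (lam_le j _ (md_le hf h)).trans_eq ?_
  simp only [one_mul, gw_shift]

variable {p : ℕ} [Fact p.Prime]

/-- The standard additive character. -/
def ec (a : ZMod p) : ℂ := ZMod.stdAddChar a

lemma ec_add (a b : ZMod p) : ec (a + b) = ec a * ec b := AddChar.map_add_eq_mul _ _ _

@[simp] lemma ec_zero : ec (0 : ZMod p) = 1 := AddChar.map_zero_eq_one _

@[simp] lemma norm_ec (a : ZMod p) : ‖ec a‖ = 1 := by simp [ec, ZMod.stdAddChar_apply]

lemma ec_neg (a : ZMod p) : ec (-a) = conj (ec a) := by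
  rw [ec, AddChar.map_neg_eq_inv, ← Complex.inv_eq_conj (norm_ec a), ec]

lemma ec_sub (a b : ZMod p) : ec (a - b) = ec a * conj (ec b) := by
  rw [sub_eq_add_neg, ec_add, ec_neg]

lemma md_ec (h : V) (F : V → ZMod p) : md h (fun x => ec (F x)) = fun x => ec (ad h F x) := by
  ext x; simp [md, ec_sub]

lemma lam_mul (j : ℕ) (g f : V → ℂ) {F : V → ZMod p} (hF : F ∈ Van j) :
    lam j (fun x => g x * ec (F x)) (fun x => f x * ec (F x)) = lam j g f := by
  induction j generalizing g f F with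
  | zero => simp [mem_Van_zero.1 hF]
  | succ j ih =>
    simp only [lam_succ]
    refine expect_congr rfl fun h _ => ?_
    rw [← ih (fun x => g x * conj (f (x + h))) (md h f) (mem_Van_succ.1 hF h)]
    congr 1 <;> ext x <;> simp [md, ec_sub] <;> ring

lemma lam_ec (j : ℕ) (F : V → ZMod p) : lam j (fun x => ec (F x)) (fun x => ec (F x)) =
    𝔼 h : Fin j → V, 𝔼 x, ec (dd j h F x) := by
  induction j generalizing F with
  | zero => simp [lam, dual]
  | succ j ih =>
    rw [lam_succ, expect_cons]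
    refine expect_congr rfl fun h _ => ?_
    simp only [dd_succ, Fin.tail_cons, Fin.cons_zero, ← ih, md_ec, ad_apply, ec_sub]

lemma gw_ec {k : ℕ} {F : V → ZMod p} (hF : F ∈ Van (k + 2)) :
    (gw k (fun x => ec (F x)) : ℂ) = 𝔼 h : Fin (k + 1) → V, ec (dd (k + 1) h F 0) := by
  rw [← lam_self, lam_ec]
  refine expect_congr rfl fun h _ => ?_
  simp only [dd_const hF h, Fintype.expect_const]

lemma cs_step (A : V →+ W) {b : W → ℂ} (hb : ∀ z, ‖b z‖ ≤ 1) (hb' : ∀ z t, b (z + A t) = b z)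
    (G : W → ℂ) : ‖𝔼 z, b z * G z‖ ^ 2 ≤ (𝔼 t, 𝔼 z, md (A t) G z).re := by
  have h1 : 𝔼 z, b z * G z = 𝔼 z, b z * 𝔼 t, G (z + A t) := by
    simp only [mul_expect]
    rw [expect_comm, ← Fintype.expect_const (ι := V) (𝔼 z, b z * G z)]
    refine expect_congr rfl fun t _ => ?_
    rw [← expect_shift _ (A t)]
    simp only [hb']
  have h2 : 𝔼 t, 𝔼 z, md (A t) G z = ((𝔼 z, ‖𝔼 t, G (z + A t)‖ ^ 2 : ℝ) : ℂ) := by
    simp only [Complex.ofReal_expect, normSq_expect]
    rw [expect_comm _ _ fun z t => 𝔼 x, md t (fun t => G (z + A t)) x]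
    refine expect_congr rfl fun t _ => ?_
    rw [expect_comm, ← Fintype.expect_const (ι := V) (𝔼 z, md (A t) G z)]
    refine expect_congr rfl fun s _ => ?_
    rw [← expect_shift _ (A s)]
    simp only [md, map_add, add_assoc]
  rw [h1, h2, Complex.ofReal_re]
  refine le_trans (pow_le_pow_left₀ (norm_nonneg _) ((RCLike.norm_expect_le (K := ℂ)).trans
    (expect_le_expect fun z _ => ?_)) 2) (sq_expect_le _)
  rw [norm_mul]
  exact mul_le_of_le_one_left (norm_nonneg _) (hb z)

lemma box (k : ℕ) (A : Fin (k + 1) → V →+ W) (b : Fin (k + 1) → W → ℂ) (hb : ∀ i z, ‖b i z‖ ≤ 1)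
    (hb' : ∀ i z t, b i (z + A i t) = b i z) (F : W → ZMod p) :
    ‖𝔼 z, (∏ i, b i z) * ec (F z)‖ ^ 2 ^ (k + 1) ≤
      (𝔼 t : Fin (k + 1) → V, 𝔼 z, ec (dd (k + 1) (fun i => A i (t i)) F z)).re := by
  induction k generalizing F with
  | zero =>
    have := cs_step (A 0) (hb 0) (hb' 0) fun z => ec (F z)
    rw [expect_cons]
    simpa [md_ec, dd_succ] using this
  | succ k ih =>
    have h1 := cs_step (A 0) (hb 0) (hb' 0) fun z => (∏ i, b (Fin.succ i) z) * ec (F z)
    rw [expect_cons, pow_succ', pow_mul, Complex.re_expect]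
    simp only [Fin.prod_univ_succ (n := k + 1), mul_assoc]
    refine (pow_le_pow_left₀ (by positivity) (h1.trans ((Complex.re_le_norm _).trans
      (RCLike.norm_expect_le (K := ℂ)))) _).trans ?_
    refine (pow_expect_le (fun _ => norm_nonneg _) _).trans (expect_le_expect fun t _ => ?_)
    have h2 := ih (Fin.tail A) (fun i => md (A 0 t) (b i.succ)) (fun i => md_le (hb _) _)
      (fun i z s => by simp only [md, Fin.tail, add_right_comm z _ (A 0 t), hb']) (ad (A 0 t) F)
    refine le_of_eq_of_le (congrArg (‖·‖ ^ _) (expect_congr rfl fun z _ => ?_)) h2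
    simp only [md, map_mul, map_prod, prod_mul_distrib, ad_apply, ec_sub]
    ring

end Pool.Agent.Lib.MP_3a84e0_co
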