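import Pool.Agent.Lib.MP_3a84e0_co.Norm

open Finset Function ComplexConjugate
open scoped BigOperators

noncomputable section

namespace Pool.Agent.Lib.MP_3a84e0_co

variable {U V W : Type} [AddCommGroup U] [AddCommGroup V] [AddCommGroup W]
  [Fintype U] [Fintype V] [Fintype W] {p : ℕ} [Fact p.Prime]

/-- In any correlation, the phase `G` may be replaced by one of degree `< k` at cost `ε`. -/
def Red (k : ℕ) (ε : ℝ) (G : W → ZMod p) : Prop :=
  ∀ Φ : W → ℂ, ∃ ψ ∈ (Van k : Submodule (ZMod p) (W → ZMod p)),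
    ε * ‖𝔼 z, Φ z * ec (G z)‖ ≤ ‖𝔼 z, Φ z * ec (ψ z)‖

variable {k : ℕ} {ε ε' : ℝ} {G G' : W → ZMod p}

lemma Red.of_mem (h : G ∈ Van k) : Red k 1 G := fun _ => ⟨G, h, by simp⟩

lemma Red.mono (h : Red k ε G) (h' : ε' ≤ ε) : Red k ε' G := fun Φ => by
  obtain ⟨ψ, h1, h2⟩ := h Φ
  exact ⟨ψ, h1, le_trans (by gcongr) h2⟩

lemma Red.add (h : Red k ε G) (h' : Red k ε' G') (hε : 0 ≤ ε) : Red k (ε * ε') (G + G') :=
  fun Φ => by
  obtain ⟨ψ', h1, h2⟩ := h' fun z => Φ z * ec (G z)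
  obtain ⟨ψ, h3, h4⟩ := h fun z => Φ z * ec (ψ' z)
  refine ⟨ψ' + ψ, add_mem h1 h3, ?_⟩
  simp only [Pi.add_apply, ec_add, ← mul_assoc]
  simp only [mul_right_comm _ (ec (G _))] at h2
  refine le_trans ?_ h4
  rw [mul_assoc]
  gcongr
  simpa only [mul_right_comm _ (ec (G _))] using h2

lemma Red.add_mem (h : Red k ε G) (h' : G' - G ∈ Van k) : Red k ε G' := by
  simpa using (Red.of_mem h').add h zero_le_one

lemma Red.sum {ι : Type} (s : Finset ι) {G : ι → W → ZMod p} (h : ∀ i ∈ s, Red k ε (G i))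
    (hε : 0 ≤ ε) : Red k (ε ^ s.card) (∑ i ∈ s, G i) := by
  classical
  induction s using Finset.induction_on with
  | empty => simpa using Red.of_mem (zero_mem _)
  | insert a s ha ih =>
    rw [sum_insert ha, card_insert_of_notMem ha, pow_succ']
    exact (h a (by simp)).add (ih fun i hi => h i (by simp [hi])) hε

lemma Red.smul (h : Red k ε G) (hε : 0 ≤ ε) (hε' : ε ≤ 1) (c : ZMod p) :
    Red k (ε ^ p) (c • G) := by
  have h1 := Red.sum (range c.val) (fun _ _ => h) hε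
  rw [sum_const, card_range, ← Nat.cast_smul_eq_nsmul (ZMod p), ZMod.natCast_zmod_val] at h1
  exact h1.mono (pow_le_pow_of_le_one hε hε' (ZMod.val_lt c).le)

lemma Red.of_avg {ι : Type} [Fintype ι] [Nonempty ι] {ψ : ι → W → ZMod p} (h : ∀ a, ψ a ∈ Van k)
    {b : ℂ} (hb : ∀ z, ec (G z) * b = 𝔼 a, ec (ψ a z)) : Red k ‖b‖ G := fun Φ => by
  have h1 : b * 𝔼 z, Φ z * ec (G z) = 𝔼 a, 𝔼 z, Φ z * ec (ψ a z) := by
    rw [expect_comm, mul_expect]
    refine expect_congr rfl fun z _ => ?_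
    rw [← mul_expect, ← hb]
    ring
  rw [← norm_mul, h1]
  obtain ⟨a, -, ha⟩ := exists_le_of_le_expect univ_nonempty (RCLike.norm_expect_le (K := ℂ)
    (s := univ) (f := fun a => 𝔼 z, Φ z * ec (ψ a z)))
  exact ⟨ψ a, h a, ha⟩

lemma red_diag {F : U → ZMod p} (hF : F ∈ Van (k + 1)) (A : Fin k → V →+ U) (L : Fin k → W →+ V) :
    Red k ‖𝔼 t : Fin k → V, ec (dd k (fun i => A i (t i)) F 0)‖
      fun z => dd k (fun i => A i (L i z)) F 0 := by
  rw [← RCLike.norm_conj]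
  refine Red.of_avg (ι := Fin k → V) (fun a => diag_sub_mem hF k (fun i => (A i).comp (L i)) 0
    (fun i => A i (a i)) 0) fun z => ?_
  simp only [ec_sub, ← mul_expect, ← conj_expect, AddMonoidHom.comp_apply, ← map_add,
    AddMonoidHom.zero_apply, add_zero]
  rw [← expect_shift' _ fun i => L i z]
  rfl

lemma gw_le_one (j : ℕ) {f : V → ℂ} (hf : ∀ x, ‖f x‖ ≤ 1) : gw j f ≤ 1 := by
  induction j generalizing f with
  | zero => exact pow_le_one₀ (norm_nonneg _) (norm_expect_le_one hf)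
  | succ j ih => exact expect_le univ_nonempty fun t _ => ih (md_le hf t)

lemma red_diag' {F : V → ZMod p} (hF : F ∈ Van (k + 2)) (L : Fin (k + 1) → W →+ V) :
    Red (k + 1) (gw k fun x => ec (F x)) fun z => dd (k + 1) (fun i => L i z) F 0 := by
  have := red_diag hF (fun _ => AddMonoidHom.id V) L
  simp only [AddMonoidHom.id_apply, ← gw_ec hF, Complex.norm_real] at this
  exact this.mono (Real.le_norm_self _)

lemma red_lt [Module (ZMod p) V] (hk : k + 1 < p) {F : V → ZMod p} (hF : F ∈ Van (k + 2)) :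
    Red (k + 1) (gw k (fun x => ec (F x)) ^ p) F :=
  ((red_diag' hF fun _ => AddMonoidHom.id V).smul (gw_nonneg _ _) (gw_le_one _ (by simp))
    (tc p (k + 1))).add_mem (taylor hk hF)

lemma red_bv {F ψ : V → ZMod p} (hF : F ∈ Van (k + 1)) (hψ : ψ ∈ Van k) :
    Red k ‖𝔼 x, ec (F x + ψ x)‖ F := by
  rw [← RCLike.norm_conj]
  refine Red.of_avg (ι := V) (fun a => sub_mem (mem_Van_succ.1 (add_mem hF (Van_le_succ _ hψ)) a)
    hψ) fun z => ?_
  rw [← expect_shift' _ z, conj_expect, mul_expect]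
  refine expect_congr rfl fun a _ => ?_
  rw [← ec_sub]
  congr 1
  simp only [Pi.sub_apply, ad_apply, Pi.add_apply]
  ring

end Pool.Agent.Lib.MP_3a84e0_co
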