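import Mathlib

noncomputable section

namespace Pool.Agent.Lib.MP_3a84e0_co

/-- The average of a complex function over a finite type. -/
def avg {α : Type} [Fintype α] (f : α → ℂ) : ℂ := (∑ x, f x) / Fintype.card α

/-- `e(a / p) = exp (2 π i a / p)` for a residue `a` mod `p`. -/
def ep (p : ℕ) (a : ZMod p) : ℂ := Complex.exp (2 * Real.pi * Complex.I * (a.val : ℂ) / (p : ℂ))

/-- The Gowers average of `f` over `k`-dimensional cubes: the mean over `x, h₁, …, h_k` of the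
product over `ω ∈ {0,1}^k` of `f (x + ω₁ h₁ + ⋯ + ω_k h_k)`, conjugated `|ω|` times. -/
def gowersAvg {p n : ℕ} [NeZero p] (k : ℕ) (f : (Fin n → ZMod p) → ℂ) : ℂ :=
  avg fun x : Fin n → ZMod p => avg fun h : Fin k → Fin n → ZMod p =>
    ∏ ω : Fin k → Fin 2, (starRingEnd ℂ)^[∑ i, (ω i).val] (f (x + ∑ i, (ω i).val • h i))

/-- The Gowers norm `‖f‖_{U^k}`: the `2^k`-th root of the (real, nonnegative) Gowers average. -/
def gowersNorm {p n : ℕ} [NeZero p] (k : ℕ) (f : (Fin n → ZMod p) → ℂ) : ℝ :=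
  (gowersAvg k f).re ^ (1 / 2 ^ k : ℝ)

/-- The correlation `|E_x f(x) e(-ψ(x)/p)|` of `f` with the phase of a polynomial `ψ`. -/
def corr {p n : ℕ} [NeZero p] (f : (Fin n → ZMod p) → ℂ) (ψ : MvPolynomial (Fin n) (ZMod p)) : ℝ :=
  ‖avg fun x => f x * ep p (-MvPolynomial.eval x ψ)‖

/-- The polynomial inverse property for `U^{s+1}` over `F_p^n` with phases of degree `≤ d`. -/
def PolyInverse (p s d : ℕ) [NeZero p] : Prop :=
  ∃ C : ℝ, 1 ≤ C ∧ ∀ (n : ℕ) (δ : ℝ) (f : (Fin n → ZMod p) → ℂ), 0 < δ → δ ≤ 1 →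
    (∀ x, ‖f x‖ ≤ 1) → δ ≤ gowersNorm (s + 1) f →
      ∃ ψ : MvPolynomial (Fin n) (ZMod p), ψ.totalDegree ≤ d ∧ C⁻¹ * δ ^ C ≤ corr f ψ

end Pool.Agent.Lib.MP_3a84e0_co
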