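import Pool.Agent.Lib.MP_3a84e0_co.Red

open Finset Function ComplexConjugate
open scoped BigOperators

noncomputable section

namespace Pool.Agent.Lib.MP_3a84e0_co

variable {V : Type} [AddCommGroup V] [Fintype V] {p : ℕ} [Fact p.Prime] [Module (ZMod p) V]

instance : Fintype (Module.Dual (ZMod p) V) :=
  @Fintype.ofFinite _ (Finite.of_injective _ DFunLike.coe_injective)

open Classical in
lemma orth (x : V) : 𝔼 l : Module.Dual (ZMod p) V, ec (l x) = if x = 0 then 1 else 0 := by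
  split_ifs with hx
  · simp [hx]
  obtain ⟨l, hl⟩ : ∃ l : Module.Dual (ZMod p) V, l x ≠ 0 := by
    by_contra h
    push Not at h
    exact hx ((Module.forall_dual_apply_eq_zero_iff _ x).1 h)
  have h1 := expect_shift (fun l : Module.Dual (ZMod p) V => ec (l x)) l
  simp only [LinearMap.add_apply, ec_add, ← expect_mul] at h1
  have h2 : ec (l x) ≠ 1 := fun h => hl (ZMod.injective_stdAddChar (h.trans ec_zero.symm))
  by_contra h
  exact h2 ((mul_eq_left₀ h).1 h1)

lemma inversion (f : V → ℂ) (y : V) : f y = Fintype.card V *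
    𝔼 l : Module.Dual (ZMod p) V, (𝔼 x, f x * ec (l x)) * conj (ec (l y)) := by
  classical
  simp only [expect_mul, mul_assoc, ← ec_sub, ← map_sub]
  rw [expect_comm]
  simp only [← mul_expect, orth, sub_eq_zero, mul_ite, mul_one, mul_zero, Fintype.card_mul_expect]
  simp

lemma parseval {g : V → ℂ} (hg : ∀ x, ‖g x‖ ≤ 1) : Fintype.card V *
    𝔼 l : Module.Dual (ZMod p) V, ‖𝔼 x, g x * conj (ec (l x))‖ ^ 2 ≤ 1 := by
  have h1 : ((Fintype.card V * 𝔼 l : Module.Dual (ZMod p) V,
      ‖𝔼 x, g x * conj (ec (l x))‖ ^ 2 : ℝ) : ℂ) = 𝔼 x, g x * conj (g x) := by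
    conv_rhs => enter [2, x]; rw [inversion (p := p) (fun x => conj (g x)) x]
    simp only [mul_left_comm (g _), ← mul_expect]
    simp only [mul_expect _ _ (g _)]
    rw [expect_comm]
    push_cast
    congr 2
    ext l
    rw [← Complex.mul_conj', conj_expect]
    simp only [map_mul, RCLike.conj_conj]
    generalize 𝔼 x, conj (g x) * ec (l x) = c
    simp only [expect_mul, mul_comm c, mul_assoc]
  refine (Real.le_norm_self _).trans ?_
  rw [← Complex.norm_real, h1]
  exact norm_expect_le_one fun x => by simpa [md] using md_le hg 0 x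

lemma fourier (f : V → ℂ) {g g' : V → ℂ} (hg : ∀ x, ‖g x‖ ≤ 1) (hg' : ∀ x, ‖g' x‖ ≤ 1) :
    ∃ l : Module.Dual (ZMod p) V,
      ‖𝔼 z : V × V, f (z.1 + z.2) * g z.1 * g' z.2‖ ≤ ‖𝔼 x, f x * ec (l x)‖ := by
  obtain ⟨l0, h0⟩ := Finite.exists_max fun l : Module.Dual (ZMod p) V => ‖𝔼 x, f x * ec (l x)‖
  refine ⟨l0, ?_⟩
  have h1 : 𝔼 z : V × V, f (z.1 + z.2) * g z.1 * g' z.2 = Fintype.card V *
      𝔼 l : Module.Dual (ZMod p) V, (𝔼 x, f x * ec (l x)) * ((𝔼 x, g x * conj (ec (l x))) *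
        𝔼 x, g' x * conj (ec (l x))) := by
    conv_lhs => enter [2, z]; rw [inversion (p := p) f (z.1 + z.2)]
    simp only [mul_assoc, ← mul_expect]
    simp only [expect_mul _ _ (g _ * g' _)]
    rw [expect_comm]
    congr 2
    ext l
    generalize 𝔼 x, f x * ec (l x) = c
    rw [Fintype.expect_mul_expect, expect_prod]
    simp only [mul_expect, map_add, ec_add, map_mul, mul_comm, mul_left_comm, mul_assoc]
  have h2 := parseval (p := p) hg
  have h3 := parseval (p := p) hg'
  rw [h1, norm_mul, Complex.norm_natCast]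
  calc _ ≤ (Fintype.card V : ℝ) * 𝔼 l : Module.Dual (ZMod p) V, ‖𝔼 x, f x * ec (l0 x)‖ / 2 *
        (‖𝔼 x, g x * conj (ec (l x))‖ ^ 2 + ‖𝔼 x, g' x * conj (ec (l x))‖ ^ 2) := by
        gcongr
        refine (RCLike.norm_expect_le (K := ℂ)).trans (expect_le_expect fun l _ => ?_)
        rw [norm_mul, norm_mul, div_mul_eq_mul_div, mul_div_assoc]
        gcongr
        · exact h0 l
        · nlinarith [sq_nonneg (‖𝔼 x, g x * conj (ec (l x))‖ - ‖𝔼 x, g' x * conj (ec (l x))‖)]
    _ ≤ _ := by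
        rw [← mul_expect, expect_add_distrib]
        nlinarith [norm_nonneg (𝔼 x, f x * ec (l0 x))]

end Pool.Agent.Lib.MP_3a84e0_co
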