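import Pool.Agent.Lib.MP_3a84e0_co.Top
import Pool.Agent.Lib.MP_3a84e0_co.Defs

open Finset Function ComplexConjugate
open scoped BigOperators

noncomputable section

namespace Pool.Agent.Lib.MP_3a84e0_co

variable {p n : ℕ} [Fact p.Prime]

lemma avg_eq {α : Type} [Fintype α] (f : α → ℂ) : avg f = 𝔼 x, f x :=
  (Fintype.expect_eq_sum_div_card f).symm

lemma ep_eq (a : ZMod p) : ep p a = ec a := (ZMod.toCircle_apply a).symm

lemma lam_eq {V : Type} [AddCommGroup V] [Fintype V] (k : ℕ) (f : V → ℂ) : lam k f f =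
    𝔼 h : Fin k → V, 𝔼 x, ∏ ω : Fin k → Fin 2,
      (starRingEnd ℂ)^[∑ i, (ω i).val] (f (x + ∑ i, (ω i).val • h i)) := by
  induction k generalizing f with
  | zero => simp [lam, dual]
  | succ k ih =>
    rw [lam_succ, expect_cons]
    refine expect_congr rfl fun t _ => (ih (md t f)).trans
      (expect_congr rfl fun h _ => expect_congr rfl fun x _ => ?_)
    rw [← (Fin.consEquiv fun _ => Fin 2).prod_comp, Fintype.prod_prod_type, Fin.prod_univ_two,
      ← prod_mul_distrib]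
    refine prod_congr rfl fun ω _ => ?_
    simp [md, Fin.consEquiv, Fin.sum_univ_succ, iterate_map_mul, add_comm 1, iterate_succ_apply,
      add_assoc, add_comm t]

lemma gowers_eq (k : ℕ) (f : (Fin n → ZMod p) → ℂ) :
    gowersNorm (k + 1) f = gw k f ^ (1 / 2 ^ (k + 1) : ℝ) := by
  simp only [gowersNorm, gowersAvg, avg_eq]
  rw [expect_comm, ← lam_eq, lam_self, Complex.ofReal_re]

lemma le_gowers_iff {k : ℕ} {f : (Fin n → ZMod p) → ℂ} {δ : ℝ} (hδ : 0 ≤ δ) :
    δ ≤ gowersNorm (k + 1) f ↔ δ ^ 2 ^ (k + 1) ≤ gw k f := by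
  rw [gowers_eq, one_div, Real.le_rpow_inv_iff_of_pos hδ (gw_nonneg _ _) (by positivity)]
  norm_cast

lemma finish {s : ℕ} (hs : s < p) {f : (Fin n → ZMod p) → ℂ} (hf : ∀ x, ‖f x‖ ≤ 1)
    {ψ : (Fin n → ZMod p) → ZMod p} (hψ : ψ ∈ Van (s + 1)) {t : ℝ}
    (h : t ≤ ‖𝔼 x, f x * ec (ψ x)‖ ^ 2) :
    ∃ P : MvPolynomial (Fin n) (ZMod p), P.totalDegree ≤ s ∧ t ≤ corr f P := by
  obtain ⟨P, h1, h2⟩ := exists_poly hs (neg_mem hψ)
  refine ⟨P, h1, h.trans ?_⟩
  simp only [corr, avg_eq, ep_eq, h2, Pi.neg_apply, neg_neg, sq]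
  exact mul_le_of_le_one_left (norm_nonneg _)
    (norm_expect_le_one fun x => mul_le' (hf x) (by simp))

theorem poly_phases (s : ℕ) (hs : s < p) : ∃ C : ℝ, 1 ≤ C ∧
    ∀ (n m : ℕ) (δ M : ℝ) (c : Fin m → ℂ) (P : Fin m → MvPolynomial (Fin n) (ZMod p))
      (f : (Fin n → ZMod p) → ℂ), 0 < δ → δ ≤ 1 → 1 ≤ M → ∑ i, ‖c i‖ ≤ M →
      (∀ i, (P i).totalDegree ≤ p) → (∀ x, f x = ∑ i, c i * ep p (MvPolynomial.eval x (P i))) →
      (∀ x, ‖f x‖ ≤ 1) → δ ≤ gowersNorm (s + 1) f →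
        ∃ ψ : MvPolynomial (Fin n) (ZMod p), ψ.totalDegree ≤ s ∧ (δ / M) ^ C ≤ corr f ψ := by
  refine ⟨((2 ^ (s + 1) * cM p 1 s + 1 : ℕ) : ℝ), by simp,
    fun n m δ M c P f h0 h1 hM hc hP hf hf' hδ => ?_⟩
  have hM0 : 0 < M := by linarith
  obtain ⟨ψ, h2, h3⟩ := inverse hs 1 hf' (c := M⁻¹) (by positivity) (inv_le_one_of_one_le₀ hM)
    (fun j hj ψ hψ => by
      have h2 : ∀ i, (fun x => MvPolynomial.eval x (P i) + ψ x) ∈ Van (p + 1) := fun i =>
        add_mem (eval_mem (P i) (hP i)) (Van_mono (by omega) hψ)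
      set g := fun x => f x * ec (ψ x)
      have h3 : lam (j + 1) g g = ∑ i, c i *
          lam (j + 1) (fun x => ec (MvPolynomial.eval x (P i) + ψ x)) g := by
        simp only [lam, mul_expect, ← expect_sum_comm]
        refine expect_congr rfl fun x _ => ?_
        simp only [g, hf, ep_eq, ec_add, sum_mul, mul_assoc]
      obtain ⟨F, h4, h5⟩ : ∃ F ∈ (Van (p + 1) : Submodule (ZMod p) _), ∀ i,
          ‖lam (j + 1) (fun x => ec (MvPolynomial.eval x (P i) + ψ x)) g‖ ≤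
            ‖lam (j + 1) (fun x => ec (F x)) g‖ := by
        rcases isEmpty_or_nonempty (Fin m) with h | h
        · exact ⟨0, zero_mem _, fun i => h.elim i⟩
        obtain ⟨i, hi⟩ := Finite.exists_max fun i =>
          ‖lam (j + 1) (fun x => ec (MvPolynomial.eval x (P i) + ψ x)) g‖
        exact ⟨_, h2 i, hi⟩
      refine ⟨F, h4, ?_⟩
      rw [pow_one, inv_mul_le_iff₀ hM0]
      refine (Real.le_norm_self _).trans ?_
      rw [← Complex.norm_real, ← lam_self, h3]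
      refine (norm_sum_le _ _).trans ((sum_le_sum fun i _ => (norm_mul _ _).trans_le
        (mul_le_mul_of_nonneg_left (h5 i) (norm_nonneg _))).trans ?_)
      rw [← sum_mul]
      gcongr) s le_rfl (zero_mem _)
  refine finish hs hf' h2 (le_trans ?_ h3)
  have h4 : δ / M ≤ 1 := (div_le_one hM0).2 (h1.trans hM)
  rw [Real.rpow_natCast]
  refine (pow_le_pow_of_le_one (by positivity) h4 (Nat.le_succ _)).trans ?_
  rw [pow_mul]
  gcongr
  simp only [Pi.zero_apply, ec_zero, mul_one]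
  rw [div_pow, div_eq_inv_mul]
  exact mul_le_mul (inv_anti₀ hM0 (le_self_pow₀ hM (by positivity))) ((le_gowers_iff h0.le).1 hδ)
    (by positivity) (by positivity)

lemma gw_dual {V : Type} [AddCommGroup V] [Fintype V] (j : ℕ) {g : V → ℂ} (hg : ∀ x, ‖g x‖ ≤ 1) :
    (gw j g ^ 2) ^ 2 ^ (j + 1) ≤ gw j (dual (j + 1) g) := by
  have h1 := lam_le j (fun x => conj (dual (j + 1) g (x + 0))) hg
  rw [gw_shift] at h1
  refine le_trans (pow_le_pow_left₀ (sq_nonneg _) ?_ _) h1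
  have h2 : lam (j + 1) (fun x => conj (dual (j + 1) g (x + 0))) g =
      ((𝔼 x, ‖dual (j + 1) g x‖ ^ 2 : ℝ) : ℂ) := by
    simp [lam, Complex.ofReal_expect, Complex.conj_mul']
  rw [h2, Complex.norm_real]
  refine le_trans ?_ (Real.le_norm_self _)
  refine le_trans (pow_le_pow_left₀ (gw_nonneg _ _) ((Real.le_norm_self _).trans ?_) 2)
    (sq_expect_le _)
  rw [← Complex.norm_real, ← lam_self]
  refine (RCLike.norm_expect_le (K := ℂ)).trans (expect_le_expect fun x _ => ?_)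
  rw [norm_mul]
  exact mul_le_of_le_one_left (norm_nonneg _) (hg x)

theorem weak_imp (s t : ℕ) (hs : s < p) (hst : s ≤ t) : PolyInverse p t p → PolyInverse p s s := by
  rintro ⟨C, hC, H⟩
  have hC0 : 0 < C := by linarith
  obtain ⟨N, hN⟩ : ∃ N, cM p (2 * ⌈C⌉₊) s = N := ⟨_, rfl⟩
  refine ⟨C ^ N + (2 ^ (s + 1) * N : ℕ), le_add_of_le_of_nonneg (one_le_pow₀ hC) (by positivity),
    fun n δ f h0 h1 hf hδ => ?_⟩
  obtain ⟨ψ, h2, h3⟩ := inverse hs (2 * ⌈C⌉₊) hf (c := C⁻¹) (by positivity)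
    (inv_le_one_of_one_le₀ hC) (fun j hj ψ hψ => by
      set g := fun x => f x * ec (ψ x)
      have hg : ∀ x, ‖g x‖ ≤ 1 := fun x => mul_le' (hf x) (by simp)
      have h2 := gw_nonneg j g
      have h3 := pow_le_one₀ (n := 2) h2 (gw_le_one j hg)
      rcases h2.eq_or_lt with h4 | h4
      · refine ⟨0, zero_mem _, ?_⟩
        rw [← h4, zero_pow (by simpa using hC0), mul_zero]
        exact norm_nonneg _
      obtain ⟨P, h5, h6⟩ := H n (gw j g ^ 2) (dual (j + 1) g) (by positivity) h3 (dual_le _ hg) (by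
        rw [le_gowers_iff (by positivity)]
        have := (pow_le_pow_left₀ (by positivity) (gw_dual j hg) _).trans (gw_pow_le j (t - j) _)
        rwa [← pow_mul, ← pow_add, add_tsub_cancel_of_le (hj.trans hst),
          show j + 1 + (t - j) = t + 1 by omega] at this)
      refine ⟨_, neg_mem (eval_mem P h5), le_trans ?_ (h6.trans_eq ?_)⟩
      · rw [pow_mul, ← Real.rpow_natCast _ ⌈C⌉₊]
        gcongr ?_ * ?_
        exact Real.rpow_le_rpow_of_exponent_ge (by positivity) h3 (Nat.le_ceil C)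
      · simp only [corr, avg_eq, ep_eq, lam, Pi.neg_apply, mul_comm]) s le_rfl (zero_mem _)
  refine finish hs hf h2 (le_trans ?_ h3)
  simp only [Pi.zero_apply, ec_zero, mul_one]
  rw [mul_pow, inv_pow, hN]
  refine mul_le_mul (inv_anti₀ (by positivity) (by simp)) ?_ (by positivity) (by positivity)
  refine le_trans ?_ (pow_le_pow_left₀ (by positivity) ((le_gowers_iff h0.le).1 hδ) _)
  rw [← pow_mul, ← Real.rpow_natCast δ]
  exact Real.rpow_le_rpow_of_exponent_ge h0 h1 (le_add_of_nonneg_left (by positivity))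

end Pool.Agent.Lib.MP_3a84e0_co
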