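import Pool.Agent.Lib.MP_3a84e0_co.Four

open Finset Function ComplexConjugate
open scoped BigOperators

noncomputable section

namespace Pool.Agent.Lib.MP_3a84e0_co

variable {U V W : Type} [AddCommGroup U] [AddCommGroup V] [AddCommGroup W]
  [Fintype U] [Fintype V] [Fintype W] {p : ℕ} [Fact p.Prime] {k : ℕ}

lemma red_box {F : U → ZMod p} (hF : F ∈ Van (k + 2)) (A : Fin (k + 1) → V →+ U)
    (b : Fin (k + 1) → U → ℂ) (hb : ∀ i z, ‖b i z‖ ≤ 1) (hb' : ∀ i z t, b i (z + A i t) = b i z)
    (L : Fin (k + 1) → W →+ V) : Red (k + 1) (‖𝔼 z, (∏ i, b i z) * ec (F z)‖ ^ 2 ^ (k + 1))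
      fun z => dd (k + 1) (fun i => A i (L i z)) F 0 := by
  refine (red_diag hF A L).mono ((box k A b hb hb' F).trans ?_)
  simp only [dd_const hF _ _, Fintype.expect_const]
  exact Complex.re_le_norm _

lemma Red.congr {ε : ℝ} {G G' : W → ZMod p} (h : Red k ε G) (e : ∀ z, G' z = G z) : Red k ε G' :=
  funext e ▸ h

omit [Fintype V] in
lemma dd_congr {h h' : Fin k → V} (e : ∀ i, h i = h' i) (F : V → ZMod p) (x : V) :
    dd k h F x = dd k h' F x := by rw [funext e]

/-- coordinate inclusions -/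
def io : Bool → V →+ V × V
  | true => AddMonoidHom.inl V V
  | false => AddMonoidHom.inr V V

/-- coordinate projections -/
def pr : Bool → V × V →+ V
  | true => AddMonoidHom.fst V V
  | false => AddMonoidHom.snd V V

/-- the twisted trilinear average -/
def tri (f g g' : V → ℂ) (ψ : V × V → ZMod p) : ℂ :=
  𝔼 z : V × V, f (z.1 + z.2) * g z.1 * g' z.2 * ec (ψ z)

/-- mixed components of the top form -/
def DD (ψ : V × V → ZMod p) (S : Finset (Fin (k + 1))) (L : Fin (k + 1) → V × V →+ V)
    (z : V × V) : ZMod p := dd (k + 1) (fun i => io (decide (i ∈ S)) (L i z)) ψ 0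

/-- closeness of two mixed components -/
def Rel (ψ : V × V → ZMod p) (ε : ℝ) (S S' : Finset (Fin (k + 1))) : Prop :=
  ∀ L, Red (k + 1) ε (DD ψ S L - DD ψ S' L)

lemma ite_le {P : Prop} [Decidable P] {a : ℂ} (h : ‖a‖ ≤ 1) : ‖if P then a else 1‖ ≤ 1 := by
  split_ifs <;> simp [h]

lemma mul_le' {a b : ℂ} (h : ‖a‖ ≤ 1) (h' : ‖b‖ ≤ 1) : ‖a * b‖ ≤ 1 := by
  rw [norm_mul]; exact mul_le_one₀ h (norm_nonneg _) h'

variable [Module (ZMod p) V] {f g g' : V → ℂ} (hf : ∀ x, ‖f x‖ ≤ 1) (hg : ∀ x, ‖g x‖ ≤ 1)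
  (hg' : ∀ x, ‖g' x‖ ≤ 1) {ψ : V × V → ZMod p} (hψ : ψ ∈ Van (k + 2))

include hf hg hg' hψ

lemma rel_edge {S : Finset (Fin (k + 1))} {i j l : Fin (k + 1)} (hi : i ∉ S) (hj : j ∈ S)
    (hl : l ∉ insert i S) : Rel ψ (‖tri f g g' ψ‖ ^ 2 ^ (k + 1)) (insert i S) S := by
  intro L
  have hji : j ≠ i := fun h => hi (h ▸ hj)
  rw [mem_insert, not_or] at hl
  have := red_box hψ (fun m => if m = i then io true - io false else io (decide (m ∈ S)))
    (fun m z => (if m = i then f (z.1 + z.2) else 1) * (if m = l then g z.1 else 1) *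
      if m = j then g' z.2 else 1)
    (fun m z => mul_le' (mul_le' (ite_le (hf _)) (ite_le (hg _))) (ite_le (hg' _)))
    (fun m z t => by
      by_cases h1 : m = i
      · subst h1
        simp [io, hji.symm, Ne.symm hl.1, show z.1 + t + (z.2 + -t) = z.1 + z.2 by abel]
      by_cases h2 : m = l
      · subst h2
        simp [io, h1, hl.2, (ne_of_mem_of_not_mem hj hl.2).symm]
      by_cases h3 : m = j
      · subst h3
        simp [io, h1, h2, hj]
      simp [h1, h2, h3]) L
  simp only [prod_mul_distrib, prod_ite_eq', mem_univ, if_true] at this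
  refine this.congr fun z => ?_
  have h1 := (top hψ).map_update_sub (fun m => io (decide (m ∈ S)) (L m z)) i (io true (L i z))
    (io false (L i z))
  simp only [top_apply] at h1
  rw [Pi.sub_apply, DD, DD]
  refine Eq.trans (congrArg₂ _ (dd_congr (fun m => ?_) _ _) (dd_congr (fun m => ?_) _ _))
    (h1.symm.trans (dd_congr (fun m => ?_) _ _)) <;> by_cases h : m = i <;> simp [h, hi]

lemma rel_swap {i j : Fin (k + 1)} (hij : i ≠ j) :
    Rel ψ (‖tri f g g' ψ‖ ^ 2 ^ (k + 2)) {i} {j} := by
  intro L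
  let A : V × V × V →+ V × V := .mk' (fun u => (u.1 - u.2.1 - u.2.2, u.2.1)) fun u v => by
    ext <;> simp; abel
  let B : V × V × V →+ V × V := .mk' (fun u => (u.1 - u.2.1 - u.2.2, u.2.2)) fun u v => by
    ext <;> simp; abel
  let E : Fin (k + 1) → V →+ V × V × V := fun m => .mk'
    (fun y => if m = i then (0, y, 0) else if m = j then (0, 0, y) else (y + y, y, y))
    fun u v => by split_ifs <;> simp [add_add_add_comm]
  have h1 := red_box (sub_mem (comp_mem' hψ A) (comp_mem' hψ B)) E
    (fun m u => (if m = i then f (u.1 - u.2.2) * conj (g' u.2.2) else 1) *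
      if m = j then g' u.2.1 * conj (f (u.1 - u.2.1)) else 1)
    (fun m z => mul_le' (ite_le (mul_le' (hf _) (by simpa using hg' _)))
      (ite_le (mul_le' (hg' _) (by simpa using hf _))))
    (fun m z t => by
      by_cases h1 : m = i
      · subst h1
        simp [E, hij]
      by_cases h2 : m = j
      · subst h2
        simp [E, h1]
      simp [h1, h2]) L
  simp only [prod_mul_distrib, prod_ite_eq', mem_univ, if_true] at h1
  have h2 := cs_step (io false) (b := fun z : V × V => g z.1) (fun z => hg _)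
    (fun z t => by simp [io]) fun z => f (z.1 + z.2) * g' z.2 * ec (ψ z)
  let e : V × V × V ≃ V × V × V := ⟨fun u => (u.2.1 + u.2.2 + (u.2.2 + u.1), u.2.2, u.2.2 + u.1),
    fun u => (u.2.2 - u.2.1, u.1 - u.2.1 - u.2.2, u.2.1), fun u => by ext <;> simp; abel,
    fun u => by ext <;> simp; abel⟩
  rw [← expect_prod fun u : V × V × V => md (io false u.1)
    (fun z : V × V => f (z.1 + z.2) * g' z.2 * ec (ψ z)) u.2] at h2
  rw [← Fintype.expect_equiv e (fun u : V × V × V => md (io false u.1)
    (fun z : V × V => f (z.1 + z.2) * g' z.2 * ec (ψ z)) u.2) _ fun u => by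
      obtain ⟨t, x, h⟩ := u
      have e1 : x + h + (h + t) - h = x + (h + t) := by abel
      simp [md, io, e, A, B, ec_sub, e1]
      ring] at h1
  refine (h1.mono ?_).congr fun z => ?_
  swap
  · let Q (u v : V × V) := top hψ (update (update (fun m => io false (L m z)) i u) j v)
    have q1 : ∀ u v v', Q u (v - v') = Q u v - Q u v' := fun u v v' =>
      (top hψ).map_update_sub _ _ _ _
    have q2 : ∀ u v, Q u (-v) = -Q u v := fun u v => (top hψ).map_update_neg _ _ _
    have q3 : ∀ u u' v, Q (u - u') v = Q u v - Q u' v := fun u u' v => by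
      simp only [Q, update_comm hij]
      exact (top hψ).map_update_sub _ _ _ _
    have q4 : ∀ u v, Q (-u) v = -Q u v := fun u v => by
      simp only [Q, update_comm hij]
      exact (top hψ).map_update_neg _ _ _
    have h3 := dd_comp (k + 1) A 0 (fun m => E m (L m z)) ψ 0
    have h4 := dd_comp (k + 1) B 0 (fun m => E m (L m z)) ψ 0
    simp only [add_zero, map_zero] at h3 h4
    rw [map_sub, Pi.sub_apply, Pi.sub_apply, h3, h4]
    have key : ∀ (w : Fin (k + 1) → V × V) u v, w i = u → w j = v →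
        (∀ m, m ≠ i → m ≠ j → w m = io false (L m z)) → dd (k + 1) w ψ 0 = Q u v := by
      intro w u v h5 h6 h7
      refine dd_congr (fun m => ?_) _ _
      by_cases h : m = j
      · simp [h, h6]
      by_cases h' : m = i
      · simp [h', h5, hij]
      simp [h, h', h7]
    rw [DD, DD, key _ (io true (L i z)) (io false (L j z)) (by simp) (by simp [hij.symm])
      (by simp +contextual), key _ (io false (L i z)) (io true (L j z)) (by simp [hij]) (by simp)
      (by simp +contextual), key _ (io false (L i z) - io true (L i z)) (-io true (L j z))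
      (by simp [A, E, io]) (by simp [A, E, io, hij.symm]) (by simp +contextual [A, E, io]),
      key _ (-io true (L i z)) (io false (L j z) - io true (L j z))
      (by simp [B, E, io]) (by simp [B, E, io, hij.symm]) (by simp +contextual [B, E, io])]
    simp only [q1, q2, q3, q4]
    ring
  · rw [pow_succ' 2 (k + 1), pow_mul]
    refine pow_le_pow_left₀ (by positivity) (le_trans ?_ (h2.trans (Complex.re_le_norm _))) _
    simp only [tri, mul_assoc, mul_left_comm (g _), le_refl]

omit hψ in
lemma tri_le : ‖tri f g g' ψ‖ ≤ 1 :=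
  norm_expect_le_one fun _ => mul_le' (mul_le' (mul_le' (hf _) (hg _)) (hg' _)) (by simp)

lemma rel_chain {S : Finset (Fin (k + 1))} (hS : S.Nonempty) (T : Finset (Fin (k + 1)))
    (hT : S ∪ T ≠ univ) : Rel ψ ((‖tri f g g' ψ‖ ^ 2 ^ (k + 1)) ^ T.card) (S ∪ T) S := by
  induction T using Finset.induction_on with
  | empty => intro L; simpa using Red.of_mem (zero_mem _)
  | insert a T ha ih =>
    rw [union_insert] at hT ⊢
    have h1 := ih fun h => hT (by simp [h])
    rw [card_insert_of_notMem ha, pow_succ']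
    intro L
    by_cases h2 : a ∈ S ∪ T
    · rw [insert_eq_of_mem h2]
      exact (h1 L).mono (mul_le_of_le_one_left (by positivity)
        (pow_le_one₀ (norm_nonneg _) (tri_le hf hg hg')))
    obtain ⟨j, hj⟩ := hS
    obtain ⟨l, hl⟩ : ∃ l, l ∉ insert a (S ∪ T) := by simpa [eq_univ_iff_forall] using hT
    simpa using (rel_edge hf hg hg' hψ h2 (mem_union_left _ hj) hl L).add (h1 L) (by positivity)

lemma rel_zero {S : Finset (Fin (k + 1))} (hS : S.Nonempty) (hS' : S ≠ univ) :
    Rel ψ ((‖tri f g g' ψ‖ ^ 2 ^ (k + 2)) ^ (k + 2)) S {0} := by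
  obtain ⟨j, hj⟩ := hS
  have h0 := tri_le (ψ := ψ) hf hg hg'
  have h1 := rel_chain hf hg hg' hψ (singleton_nonempty j) S (by simpa [hj] using hS')
  rw [union_eq_right.2 (by simpa using hj)] at h1
  have h2 : Rel ψ (‖tri f g g' ψ‖ ^ 2 ^ (k + 2)) {j} ({0} : Finset (Fin (k + 1))) := by
    by_cases h : j = 0
    · intro L
      simpa [h] using (Red.of_mem (zero_mem _)).mono (pow_le_one₀ (norm_nonneg _) h0)
    exact rel_swap hf hg hg' hψ h
  intro L
  have h3 := (h1 L).add (h2 L) (by positivity)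
  rw [sub_add_sub_cancel] at h3
  refine h3.mono ?_
  rw [pow_succ _ (k + 1), ← pow_mul, ← pow_mul]
  refine mul_le_mul_of_nonneg_right (pow_le_pow_of_le_one (norm_nonneg _) h0
    (Nat.mul_le_mul ?_ ?_)) (by positivity)
  · gcongr <;> omega
  · simpa using S.card_le_univ

lemma sym_step (hk : k + 1 < p) : ∃ φ ∈ (Van (k + 2) : Submodule (ZMod p) (V → ZMod p)),
    ∃ α β : V → ZMod p, Red (k + 1) ((((‖tri f g g' ψ‖ ^ 2 ^ (k + 2)) ^ (k + 2)) ^ 2 ^ (k + 1)) ^ p)
      fun z => ψ z - φ (z.1 + z.2) - α z.1 - β z.2 := by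
  let T (S : Finset (Fin (k + 1))) (y : V) := dd (k + 1) (fun i => io (decide (i ∈ S)) y) ψ 0
  let π (S : Finset (Fin (k + 1))) (i : Fin (k + 1)) : V × V →+ V := pr (decide (i ∈ S))
  have h0 := tri_le (ψ := ψ) hf hg hg'
  refine ⟨tc p (k + 1) • T {0}, Submodule.smul_mem _ _ (diag_mem hψ _ _ 0),
    tc p (k + 1) • (T univ - T {0}), tc p (k + 1) • (T ∅ - T {0}), ?_⟩
  have h1 := Red.sum ((univ.erase ∅).erase univ) (fun S hS => rel_zero hf hg hg' hψ (S := S)
    (by simpa [nonempty_iff_ne_empty] using (mem_erase.1 (mem_erase.1 hS).2).1)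
    (mem_erase.1 hS).1 (π S)) (by positivity)
  have h2 : ((univ.erase ∅).erase (univ : Finset (Fin (k + 1)))).card ≤ 2 ^ (k + 1) := by
    simpa using card_le_univ ((univ.erase ∅).erase (univ : Finset (Fin (k + 1))))
  have h3 := pow_le_one₀ (n := k + 2) (by positivity) (pow_le_one₀ (n := 2 ^ (k + 2))
    (norm_nonneg _) h0)
  refine ((h1.mono (pow_le_pow_of_le_one (by positivity) h3 h2)).smul (by positivity)
    (pow_le_one₀ (by positivity) h3) (tc p (k + 1))).add_mem ?_
  convert taylor hk hψ using 1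
  ext z
  have h4 : dd (k + 1) (fun _ => z) ψ 0 = ∑ S, DD ψ S (π S) z := by
    have := (top hψ).map_add_univ (fun _ => io true z.1) fun _ => io false z.2
    simp only [top_apply] at this
    convert this using 3 with S
    · ext <;> simp [io]
    · exact dd_congr (fun i => by by_cases h : i ∈ S <;> simp [h, π, pr]) _ _
  have h5 : T {0} (z.1 + z.2) = ∑ S, DD ψ {0} (π S) z := by
    have := (top hψ).map_add_univ (fun i => io (decide (i ∈ ({0} : Finset _))) z.1)
      fun i => io (decide (i ∈ ({0} : Finset _))) z.2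
    simp only [top_apply] at this
    convert this using 3 with S
    · simp only [T, map_add]; rfl
    · exact dd_congr (fun i => by by_cases h : i ∈ S <;> simp [h, π, pr]) _ _
  have h6 := add_sum_erase univ (fun S => DD ψ S (π S) z - DD ψ {0} (π S) z) (mem_univ ∅)
  rw [← add_sum_erase _ _ (a := univ) (by simp [univ_nonempty.ne_empty]), sum_sub_distrib (s := univ),
    ← h4, ← h5] at h6
  have h7 : DD ψ ∅ (π ∅) z = T ∅ z.2 ∧ DD ψ {0} (π ∅) z = T {0} z.2 ∧
      DD ψ univ (π univ) z = T univ z.1 ∧ DD ψ {0} (π univ) z = T {0} z.1 := by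
    simp [DD, T, π, pr]
  simp only [h7] at h6
  simp only [Pi.sub_apply, Pi.smul_apply, smul_eq_mul, Finset.sum_apply]
  linear_combination (-tc p (k + 1)) * h6

end Pool.Agent.Lib.MP_3a84e0_co
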