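import Pool.Agent.Lib.MP_3a84e0_co.Sym

open Finset Function ComplexConjugate
open scoped BigOperators

noncomputable section

namespace Pool.Agent.Lib.MP_3a84e0_co

variable {V : Type} [AddCommGroup V] [Fintype V] {p : ℕ} [Fact p.Prime] [Module (ZMod p) V]

/-- exponent in the symmetrisation lemma -/
def cS (p : ℕ) : ℕ → ℕ
  | 0 => 1
  | k + 1 => (2 ^ (k + 3) * (k + 3) * 2 ^ (k + 2) * p + 1) * cS p k

lemma sym (k : ℕ) (hk : k + 1 < p) {f g g' : V → ℂ} (hf : ∀ x, ‖f x‖ ≤ 1) (hg : ∀ x, ‖g x‖ ≤ 1)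
    (hg' : ∀ x, ‖g' x‖ ≤ 1) {ψ : V × V → ZMod p} (hψ : ψ ∈ Van (k + 2)) :
    ∃ φ ∈ (Van (k + 2) : Submodule (ZMod p) (V → ZMod p)),
      ‖tri f g g' ψ‖ ^ cS p k ≤ ‖𝔼 x, f x * ec (φ x)‖ := by
  induction k generalizing f g g' ψ with
  | zero =>
    obtain ⟨l, hl⟩ := fourier (p := p) f (g := fun x => g x * ec (ψ (x, 0)))
      (g' := fun x => g' x * ec (ψ (0, x) - ψ 0)) (fun x => mul_le' (hg x) (by simp))
      fun x => mul_le' (hg' x) (by simp)
    refine ⟨fun x => l x, mem_Van_succ.2 fun h => ?_, le_of_eq_of_le ?_ hl⟩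
    · convert const_mem (-l h) using 1
      ext; simp
    rw [cS, pow_one, tri]
    congr 2
    ext ⟨x, h⟩
    have h1 := congrFun (mem_Van_iff.1 hψ ![(x, 0), (0, h)]) 0
    simp only [dd_succ', dd_zero, Fin.tail] at h1
    have h2 : ψ (x, h) = ψ (x, 0) + (ψ (0, h) - ψ 0) := by
      simp at h1
      linear_combination h1
    rw [h2, ec_add]
    ring
  | succ k ih =>
    obtain ⟨φ, h1, α, β, h2⟩ := sym_step hf hg hg' hψ hk
    obtain ⟨ψ', h3, h4⟩ := h2 fun z => f (z.1 + z.2) * ec (φ (z.1 + z.2)) * (g z.1 * ec (α z.1)) *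
      (g' z.2 * ec (β z.2))
    obtain ⟨φ', h5, h6⟩ := ih (by omega) (f := fun x => f x * ec (φ x))
      (g := fun x => g x * ec (α x)) (g' := fun x => g' x * ec (β x))
      (fun x => mul_le' (hf x) (by simp)) (fun x => mul_le' (hg x) (by simp))
      (fun x => mul_le' (hg' x) (by simp)) h3
    refine ⟨φ + φ', add_mem h1 (Van_le_succ _ h5), ?_⟩
    simp only [Pi.add_apply, ec_add, ← mul_assoc]
    refine le_trans ?_ h6
    rw [cS, pow_mul]
    gcongr
    refine le_of_eq_of_le ?_ h4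
    rw [pow_succ, pow_mul, pow_mul, pow_mul, tri]
    congr 3
    ext z
    conv_lhs => rw [show ψ z = φ (z.1 + z.2) + α z.1 + β z.2 +
      (ψ z - φ (z.1 + z.2) - α z.1 - β z.2) by ring]
    simp only [ec_add]
    ring

lemma red_cocycle {k : ℕ} (hk : k + 1 < p) {F : V → ZMod p} (hF : F ∈ Van (k + 3)) :
    Red (k + 2) ((gw (k + 1) (fun x => ec (F x)) ^ p) ^ (k + 1))
      fun z : V × V => F z.1 + F z.2 - F (z.1 + z.2) := by
  have h0 : ∀ j : ℕ, ∃ σ : Fin (k + 2) → Bool, j ≤ k + 2 → na σ true = j := fun j => by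
    by_cases hj : j ≤ k + 2
    · obtain ⟨S, -, hS⟩ := exists_subset_card_eq (s := (univ : Finset (Fin (k + 2)))) (n := j)
        (by simpa using hj)
      exact ⟨fun i => decide (i ∈ S), fun _ => by simp [na, hS]⟩
    · exact ⟨fun _ => true, fun h => absurd h hj⟩
  choose σ hσ using h0
  let c (j : ℕ) : ZMod p := -((-1 : ZMod p) ^ (k + 2) * (j.factorial * (k + 2 - j).factorial))⁻¹
  have h1 := Red.sum (range (k + 1)) (fun j _ => (red_diag' hF fun i => pr (σ (j + 1) i)).smul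
    (gw_nonneg _ _) (gw_le_one _ (by simp)) (c (j + 1))) (pow_nonneg (gw_nonneg _ _) _)
  rw [card_range] at h1
  have a1 := comp_mem' hF (pr true)
  have a2 := comp_mem' hF (pr false)
  have a3 := comp_mem' hF (pr true + pr false)
  refine h1.add_mem (mem_of_top (sub_mem (sub_mem (add_mem a1 a2) a3) (sum_mem fun j _ =>
    Submodule.smul_mem _ _ (diag_mem hF _ _ 0))) fun w => ?_)
  let t (S : Finset (Fin (k + 2))) := top hF fun i => pr (decide (i ∈ S)) (w i)
  have b (C : V × V →+ V) : dd (k + 2) w (fun z => F (C z)) 0 = top hF fun i => C (w i) := by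
    simpa [top_apply] using dd_comp (k + 2) C 0 w F 0
  have b3 : top hF (fun i => (pr true + pr false : V × V →+ V) (w i)) = ∑ S, t S :=
    ((top hF).map_add_univ (fun i => pr true (w i)) fun i => pr false (w i)).trans
      (sum_congr rfl fun S _ => congrArg (top hF) (funext fun i => by by_cases h : i ∈ S <;> simp [h]))
  have h2 := sum_fiberwise_of_maps_to (s := univ) (t := range (k + 2 + 1)) (g := card)
    (fun S _ => by simpa [Nat.lt_succ_iff] using S.card_le_univ) t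
  have h3 : (univ.filter fun S : Finset (Fin (k + 2)) => S.card = k + 2) = {univ} := by
    ext S
    simpa using S.card_eq_iff_eq_univ
  have h4 : (univ.filter fun S : Finset (Fin (k + 2)) => S.card = 0) = {∅} := by
    ext S
    simp
  rw [sum_range_succ, sum_range_succ', h3, h4, sum_singleton, sum_singleton] at h2
  have h5 : ∀ j ∈ range (k + 1), c (j + 1) * dd (k + 2) w
      (fun z => dd (k + 2) (fun i => pr (σ (j + 1) i) z) F 0) 0 =
      -∑ S with S.card = j + 1, t S := fun j hj => by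
    rw [mem_range] at hj
    have h6 := na_add (σ (j + 1))
    have h7 := hσ (j + 1) (by omega)
    rw [top_diag hF, h7, show na (σ (j + 1)) false = k + 2 - (j + 1) by omega]
    have h8 := fact_ne (p := p) (k := j + 1) (by omega)
    have h9 := fact_ne (p := p) (k := k + 2 - (j + 1)) (by omega)
    simp only [c, t]
    field_simp
  change dd (k + 2) w ((fun z => F (pr true z)) + (fun z => F (pr false z)) -
    (fun z => F ((pr true + pr false : V × V →+ V) z)) - _) 0 = 0
  simp only [map_sub, map_add, map_sum, map_smul, Pi.sub_apply, Pi.add_apply, Finset.sum_apply,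
    Pi.smul_apply, smul_eq_mul, b, b3, sum_congr rfl h5, sum_neg_distrib, ← h2]
  simp [t]
  ring

/-- exponent of the top reduction -/
def cT (p : ℕ) : ℕ := p + p * (p - 1) * cS p (p - 2)

lemma red_top {k : ℕ} (hk : k + 1 ≤ p) {F : V → ZMod p} (hF : F ∈ Van (k + 2)) :
    Red (k + 1) (gw k (fun x => ec (F x)) ^ cT p) F := by
  have h0 := gw_nonneg k fun x => ec (F x)
  have h1 := gw_le_one k (f := fun x => ec (F x)) (by simp)
  rcases hk.lt_or_eq with hk | hk
  · exact (red_lt hk hF).mono (pow_le_pow_of_le_one h0 h1 (Nat.le_add_right _ _))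
  have h2 := (Fact.out : p.Prime).two_le
  obtain ⟨k, rfl⟩ : ∃ j, k = j + 1 := ⟨k - 1, by omega⟩
  obtain ⟨ψ, h3, h4⟩ := red_cocycle (by omega) hF fun z =>
    ec (F (z.1 + z.2)) * ec (-F z.1) * ec (-F z.2)
  obtain ⟨φ, h5, h6⟩ := sym k (by omega) (f := fun x => ec (F x)) (g := fun x => ec (-F x))
    (g' := fun x => ec (-F x)) (by simp) (by simp) (by simp) h3
  simp only [← ec_add] at h6
  refine (red_bv hF h5).mono (le_trans ?_ h6)
  have h7 : ∀ a b c : ZMod p, c + -a + -b + (a + b - c) = 0 := fun a b c => by ring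
  simp only [← ec_add, h7, ec_zero, Fintype.expect_const, norm_one, mul_one] at h4
  refine (pow_le_pow_of_le_one h0 h1 (Nat.le_add_left _ _)).trans ?_
  rw [pow_mul, pow_mul, show p - 1 = k + 1 by omega, show p - 2 = k by omega]
  gcongr
  simpa only [tri, ← ec_add] using h4

/-- exponent of degree lowering -/
def cL (p : ℕ) : ℕ := 2 ^ p * cT p + 1

lemma lower (j m : ℕ) (hm : j + m ≤ p) {f : V → ℂ} (hf : ∀ x, ‖f x‖ ≤ 1) {F : V → ZMod p}
    (hF : F ∈ Van (j + m + 1)) : ∃ ψ ∈ (Van (j + 1) : Submodule (ZMod p) (V → ZMod p)),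
      ‖lam (j + 1) (fun x => ec (F x)) f‖ ^ cL p ^ m ≤ ‖lam (j + 1) (fun x => ec (ψ x)) f‖ := by
  induction m generalizing F with
  | zero => exact ⟨F, hF, by simp⟩
  | succ m ih =>
    obtain ⟨F', h1, h2⟩ := red_top (k := j + m) hm hF (dual (j + 1) f)
    obtain ⟨ψ, h3, h4⟩ := ih (by omega) h1
    refine ⟨ψ, h3, le_trans ?_ h4⟩
    rw [pow_succ', pow_mul]
    gcongr
    simp only [mul_comm (dual _ _ _)] at h2
    refine le_trans ?_ h2
    rw [cL, pow_succ, pow_mul]
    have h5 := lam_le j (fun x => ec (F x)) hf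
    have h6 : ‖lam (j + 1) (fun x => ec (F x)) f‖ ≤ 1 :=
      norm_expect_le_one fun x => mul_le' (by simp) (dual_le _ hf x)
    refine mul_le_mul_of_nonneg_right (pow_le_pow_left₀ (by positivity) ?_ _) (norm_nonneg _)
    refine le_trans ?_ ((pow_le_pow_left₀ (by positivity) h5 _).trans (gw_pow_le j m _))
    rw [← pow_mul, ← pow_add]
    exact pow_le_pow_of_le_one (norm_nonneg _) h6 (by gcongr <;> omega)

/-- exponent of the inverse theorem -/
def cM (p a : ℕ) : ℕ → ℕ
  | 0 => 1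
  | j + 1 => ((a + 1) * cL p ^ (p - (j + 1)) * 2 ^ (j + 1) + 1) * cM p a j

lemma inverse {s : ℕ} (hs : s < p) (a : ℕ) {f : V → ℂ} (hf : ∀ x, ‖f x‖ ≤ 1) {c : ℝ} (hc : 0 ≤ c)
    (hc' : c ≤ 1) (H : ∀ j ≤ s, ∀ ψ ∈ (Van (s + 1) : Submodule (ZMod p) (V → ZMod p)),
      ∃ F ∈ (Van (p + 1) : Submodule (ZMod p) (V → ZMod p)),
        c * gw j (fun x => f x * ec (ψ x)) ^ a ≤
          ‖lam (j + 1) (fun x => ec (F x)) fun x => f x * ec (ψ x)‖)
    (j : ℕ) (hj : j ≤ s) {ψ : V → ZMod p} (hψ : ψ ∈ Van (s + 1)) :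
    ∃ ψ' ∈ (Van (s + 1) : Submodule (ZMod p) (V → ZMod p)),
      (c * gw j fun x => f x * ec (ψ x)) ^ cM p a j ≤ ‖𝔼 x, f x * ec (ψ' x)‖ ^ 2 := by
  have h0 : ∀ (ψ : V → ZMod p) x, ‖f x * ec (ψ x)‖ ≤ 1 := fun ψ x => mul_le' (hf x) (by simp)
  induction j generalizing ψ with
  | zero => exact ⟨ψ, hψ, by simpa [cM, gw] using mul_le_of_le_one_left (sq_nonneg _) hc'⟩
  | succ j ih =>
    obtain ⟨F, h1, h2⟩ := H (j + 1) hj ψ hψ
    obtain ⟨χ, h3, h4⟩ := lower (j + 1) (p - (j + 1)) (by omega) (h0 ψ) (F := F)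
      (by rwa [add_tsub_cancel_of_le (by omega)])
    obtain ⟨ψ', h5, h6⟩ := ih (by omega) (sub_mem hψ (Van_mono (by omega) h3))
    refine ⟨ψ', h5, le_trans ?_ h6⟩
    have h7 := lam_mul (j + 2) (fun _ => 1) (fun x => f x * ec ((ψ - χ) x)) h3
    simp only [one_mul, mul_assoc, ← ec_add, Pi.sub_apply, sub_add_cancel] at h7
    have h8 := lam_one_le j (h0 (ψ - χ))
    have h9 := gw_nonneg (j + 1) fun x => f x * ec (ψ x)
    have h10 := gw_le_one (j + 1) (h0 ψ)
    rw [cM, pow_mul, pow_succ', pow_mul, pow_mul]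
    refine pow_le_pow_left₀ (by positivity) (mul_le_mul (mul_le_of_le_one_right hc h10)
      (le_trans ?_ h8) (by positivity) hc) _
    simp only [Pi.sub_apply, ← h7]
    refine pow_le_pow_left₀ (by positivity) (le_trans (pow_le_pow_left₀ (by positivity)
      (le_trans ?_ h2) _) h4) _
    rw [mul_pow, pow_succ', pow_succ]
    exact mul_le_mul (mul_le_of_le_one_right hc (pow_le_one₀ hc hc'))
      (mul_le_of_le_one_right (by positivity) h10) (by positivity) hc

end Pool.Agent.Lib.MP_3a84e0_co
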