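import Mathlib

open Finset Function

noncomputable section

namespace Pool.Agent.Lib.MP_3a84e0_co

variable {R : Type} [CommRing R] {U V W : Type} [AddCommGroup U] [AddCommGroup V] [AddCommGroup W]

/-- Additive difference `F x - F (x + h)`. -/
def ad (h : V) : (V → R) →ₗ[R] (V → R) where
  toFun F x := F x - F (x + h)
  map_add' F G := by ext x; simp; ring
  map_smul' a F := by ext x; simp; ring

@[simp] lemma ad_apply (h : V) (F : V → R) (x : V) : ad h F x = F x - F (x + h) := rfl

/-- Functions all of whose `k`-fold differences vanish. -/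
def Van : ℕ → Submodule R (V → R)
  | 0 => ⊥
  | k + 1 => ⨅ h : V, (Van k).comap (ad h)

lemma mem_Van_succ {k : ℕ} {F : V → R} : F ∈ Van (k + 1) ↔ ∀ h, ad h F ∈ Van k := by
  simp [Van]

lemma mem_Van_zero {F : V → R} : F ∈ Van 0 ↔ F = 0 := by simp [Van]

/-- Iterated difference. -/
def dd : (k : ℕ) → (Fin k → V) → (V → R) →ₗ[R] (V → R)
  | 0, _ => LinearMap.id
  | k + 1, h => dd k (Fin.tail h) ∘ₗ ad (h 0)

lemma dd_succ (k : ℕ) (h : Fin (k + 1) → V) (F : V → R) :
    dd (k + 1) h F = dd k (Fin.tail h) (ad (h 0) F) := rfl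

@[simp] lemma dd_zero (h : Fin 0 → V) (F : V → R) : dd 0 h F = F := rfl

lemma mem_Van_iff {k : ℕ} {F : V → R} : F ∈ Van k ↔ ∀ h, dd k h F = 0 := by
  induction k generalizing F with
  | zero => simp [mem_Van_zero]
  | succ k ih =>
    simp only [mem_Van_succ, ih, dd_succ]
    exact ⟨fun H h => H _ _, fun H a t => by simpa using H (Fin.cons a t)⟩

lemma dd_comp (k : ℕ) (C : W →+ V) (b : V) (h : Fin k → W) (F : V → R) (x : W) :
    dd k h (fun z => F (C z + b)) x = dd k (fun i => C (h i)) F (C x + b) := by
  induction k generalizing F with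
  | zero => rfl
  | succ k ih =>
    rw [dd_succ, dd_succ]
    have : ad (h 0) (fun z => F (C z + b)) = fun z => ad (C (h 0)) F (C z + b) := by
      ext z; simp [add_right_comm]
    rw [this, ih]; rfl

lemma dd_shift (k : ℕ) (b : V) (h : Fin k → V) (F : V → R) (x : V) :
    dd k h (fun z => F (z + b)) x = dd k h F (x + b) :=
  dd_comp k (AddMonoidHom.id V) b h F x

lemma dd_succ' (k : ℕ) (h : Fin (k + 1) → V) (F : V → R) (x : V) :
    dd (k + 1) h F x = dd k (Fin.tail h) F x - dd k (Fin.tail h) F (x + h 0) := by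
  rw [dd_succ, ← dd_shift]
  exact congrFun (map_sub (dd k (Fin.tail h)) F fun z => F (z + h 0)) x

lemma comp_mem {k : ℕ} {F : V → R} (hF : F ∈ Van k) (C : W →+ V) (b : V) :
    (fun z => F (C z + b)) ∈ (Van k : Submodule R (W → R)) :=
  mem_Van_iff.2 fun h => funext fun x => by rw [dd_comp, mem_Van_iff.1 hF]; rfl

lemma comp_mem' {k : ℕ} {F : V → R} (hF : F ∈ Van k) (C : W →+ V) :
    (fun z => F (C z)) ∈ (Van k : Submodule R (W → R)) := by
  simpa using comp_mem hF C 0

lemma shift_mem {k : ℕ} {F : V → R} (hF : F ∈ Van k) (b : V) :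
    (fun z => F (z + b)) ∈ (Van k : Submodule R (V → R)) := comp_mem hF (AddMonoidHom.id V) b

lemma Van_le_succ (k : ℕ) : (Van k : Submodule R (V → R)) ≤ Van (k + 1) := fun _ hF =>
  mem_Van_succ.2 fun h => sub_mem hF (shift_mem hF h)

lemma Van_mono : Monotone (Van : ℕ → Submodule R (V → R)) := monotone_nat_of_le_succ Van_le_succ

lemma dd_mem {k m : ℕ} {F : V → R} (hF : F ∈ Van (m + k)) (h : Fin k → V) : dd k h F ∈ Van m := by
  induction k generalizing F with
  | zero => exact hF
  | succ k ih => exact ih (mem_Van_succ.1 hF _) _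

lemma eq_of_mem_one {F : V → R} (hF : F ∈ Van 1) (x : V) : F x = F 0 := by
  have := congrFun (mem_Van_zero.1 (mem_Van_succ.1 hF x)) 0
  exact (sub_eq_zero.1 (by simpa using this)).symm

lemma const_mem (a : R) : (fun _ => a) ∈ (Van 1 : Submodule R (V → R)) :=
  mem_Van_succ.2 fun h => mem_Van_zero.2 (by ext; simp)

lemma dd_const {k : ℕ} {F : V → R} (hF : F ∈ Van (k + 1)) (h : Fin k → V) (x : V) :
    dd k h F x = dd k h F 0 := eq_of_mem_one (dd_mem (by rwa [add_comm]) h) x

lemma mem_of_top {k : ℕ} {F : V → R} (hF : F ∈ Van (k + 1)) (H : ∀ h, dd k h F 0 = 0) :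
    F ∈ Van k := mem_Van_iff.2 fun h => funext fun x => (dd_const hF h x).trans (H h)

lemma mul_mem_Van (n : ℕ) : ∀ a b, a + b = n → ∀ F ∈ (Van a : Submodule R (V → R)),
    ∀ G ∈ (Van (b + 1) : Submodule R (V → R)), F * G ∈ (Van n : Submodule R (V → R)) := by
  induction n with
  | zero =>
    intro a b h F hF G _
    obtain rfl : a = 0 := by omega
    simp [mem_Van_zero.1 hF]
  | succ n ih =>
    intro a b h F hF G hG
    obtain _ | a := a
    · simp [mem_Van_zero.1 hF]
    refine mem_Van_succ.2 fun t => ?_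
    have : ad t (F * G) = ad t F * G + ad t G * fun z => F (z + t) := by ext x; simp; ring
    rw [this]
    exact add_mem (ih a b (by omega) _ (mem_Van_succ.1 hF t) _ hG)
      (ih b a (by omega) _ (mem_Van_succ.1 hG t) _ (shift_mem hF t))

lemma dd_update_add {k : ℕ} {F : V → R} (hF : F ∈ Van (k + 1)) (h : Fin k → V) (i : Fin k)
    (u v : V) :
    dd k (update h i (u + v)) F 0 = dd k (update h i u) F 0 + dd k (update h i v) F 0 := by
  induction k generalizing F with
  | zero => exact i.elim0
  | succ k ih =>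
    refine Fin.cases ?_ (fun j => ?_) i
    · simp only [dd_succ, Fin.tail_update_zero, update_self]
      have : ad (u + v) F = ad u F + fun z => ad v F (z + u) := by ext x; simp [add_assoc]
      rw [this, map_add, Pi.add_apply, dd_shift, dd_const (mem_Van_succ.1 hF v) _ (0 + u)]
    · simp only [dd_succ, Fin.tail_update_succ, update_of_ne (Fin.succ_ne_zero j).symm]
      exact ih (mem_Van_succ.1 hF _) _ _

lemma diag_mem {k : ℕ} {F : V → R} (hF : F ∈ Van k) (j : ℕ) (B : Fin j → W →+ V) (C : W →+ V) :
    (fun z => dd j (fun i => B i z) F (C z)) ∈ (Van k : Submodule R (W → R)) := by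
  induction j generalizing C with
  | zero => exact comp_mem' hF C
  | succ j ih =>
    simp only [dd_succ']
    exact sub_mem (ih (Fin.tail B) C) (ih (Fin.tail B) (C + B 0))

lemma diag_sub_mem {k : ℕ} {F : V → R} (hF : F ∈ Van (k + 1)) (j : ℕ) (B : Fin j → W →+ V)
    (C : W →+ V) (b : Fin j → V) (b' : V) :
    (fun z => dd j (fun i => B i z) F (C z) - dd j (fun i => B i z + b i) F (C z + b')) ∈
      (Van k : Submodule R (W → R)) := by
  induction j generalizing C b' with
  | zero => exact comp_mem' (mem_Van_succ.1 hF b') C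
  | succ j ih =>
    have := sub_mem (ih (Fin.tail B) C (Fin.tail b) b')
      (ih (Fin.tail B) (C + B 0) (Fin.tail b) (b' + b 0))
    convert this using 1
    ext z
    simp only [dd_succ', Pi.sub_apply, AddMonoidHom.add_apply, add_add_add_comm (C z) b']
    exact sub_sub_sub_comm _ _ _ _

variable {p : ℕ} [Fact p.Prime] [Module (ZMod p) V] [Module (ZMod p) W]

/-- The top multilinear form. -/
def top {k : ℕ} {F : V → ZMod p} (hF : F ∈ Van (k + 1)) :
    MultilinearMap (ZMod p) (fun _ : Fin k => V) (ZMod p) :=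
  MultilinearMap.mk' (fun h => dd k h F 0) (fun h i u v => dd_update_add hF h i u v)
    fun h i c u => ZMod.map_smul (AddMonoidHom.mk' (fun u => dd k (update h i u) F 0)
      (dd_update_add hF h i)) c u

lemma top_apply {k : ℕ} {F : V → ZMod p} (hF : F ∈ Van (k + 1)) (h : Fin k → V) :
    top hF h = dd k h F 0 := rfl

/-- number of `true` values -/
def na {j : ℕ} (σ : Fin j → Bool) (t : Bool) : ℕ := ∑ i, if σ i = t then 1 else 0

lemma top_aux {k : ℕ} {F : V → ZMod p} (hF : F ∈ Van (k + 1)) (π : Bool → W →+ V)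
    (w : Fin k → W) (j : ℕ) (σ : Fin j → Bool) (α β : ZMod p) :
    dd k w (fun z => dd j (fun i => π (σ i) z) F (α • π true z + β • π false z)) 0 =
      ∑ S : Finset (Fin k), (-1) ^ j * ((fwdDiff 1)^[na σ true] (fun r => r ^ S.card) α *
        (fwdDiff 1)^[na σ false] (fun r => r ^ (k - S.card)) β) *
          top hF fun i => π (decide (i ∈ S)) (w i) := by
  induction j generalizing α β with
  | zero =>
    have h1 := dd_comp k (α • π true + β • π false) 0 w F 0
    simp only [add_zero, map_zero, AddMonoidHom.add_apply, AddMonoidHom.smul_apply] at h1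
    simp only [dd_zero, h1, na, univ_eq_empty, sum_empty, iterate_zero, id, pow_zero, one_mul]
    rw [← top_apply hF]
    refine ((top hF).map_add_univ (fun i => α • π true (w i)) fun i => β • π false (w i)).trans
      (sum_congr rfl fun S _ => ?_)
    have : S.piecewise (fun i => α • π true (w i)) (fun i => β • π false (w i)) =
        fun i => (if i ∈ S then α else β) • π (decide (i ∈ S)) (w i) := by
      ext i; by_cases hi : i ∈ S <;> simp [hi]
    rw [this, MultilinearMap.map_smul_univ, prod_ite, smul_eq_mul]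
    simp [filter_notMem_eq_sdiff, card_univ_sdiff]
  | succ j ih =>
    have h1 : (fun z => dd (j + 1) (fun i => π (σ i) z) F (α • π true z + β • π false z)) =
        (fun z => dd j (fun i => π (Fin.tail σ i) z) F (α • π true z + β • π false z)) -
        fun z => dd j (fun i => π (Fin.tail σ i) z) F
          ((α + if σ 0 then 1 else 0) • π true z + (β + if σ 0 then 0 else 1) • π false z) := by
      ext z
      rw [dd_succ', Pi.sub_apply]
      refine congrArg₂ _ rfl (congrArg _ ?_)
      cases σ 0 <;> simp [add_smul] <;> abel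
    rw [h1, map_sub, Pi.sub_apply, ih, ih, ← sum_sub_distrib]
    refine sum_congr rfl fun S _ => ?_
    have h2 : ∀ t, na σ t = na (Fin.tail σ) t + if σ 0 = t then 1 else 0 := fun t => by
      rw [na, Fin.sum_univ_succ, add_comm]; rfl
    rw [h2, h2]
    cases σ 0 <;> simp [iterate_succ_apply', fwdDiff] <;> ring

lemma na_add {j : ℕ} (σ : Fin j → Bool) : na σ true + na σ false = j := by
  rw [na, na, ← sum_add_distrib, sum_congr rfl (g := fun _ => 1) fun i _ => by cases σ i <;> simp]
  simp

lemma top_diag {k : ℕ} {F : V → ZMod p} (hF : F ∈ Van (k + 1)) (π : Bool → W →+ V)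
    (w : Fin k → W) (σ : Fin k → Bool) :
    dd k w (fun z => dd k (fun i => π (σ i) z) F 0) 0 =
      (-1) ^ k * ((na σ true).factorial * (na σ false).factorial) *
        ∑ S : Finset (Fin k) with S.card = na σ true, top hF fun i => π (decide (i ∈ S)) (w i) := by
  have h1 := top_aux hF π w k σ 0 0
  simp only [zero_smul, add_zero] at h1
  rw [h1, sum_filter, mul_sum]
  refine sum_congr rfl fun S _ => ?_
  have h2 := na_add σ
  have h3 : S.card ≤ k := by simpa using S.card_le_univ
  rcases lt_trichotomy S.card (na σ true) with h | h | h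
  · simp [fwdDiff_iter_pow_eq_zero_of_lt h, h.ne]
  · rw [h, show k - na σ true = na σ false by omega]
    simp [fwdDiff_iter_eq_factorial]
  · simp [fwdDiff_iter_pow_eq_zero_of_lt (show k - S.card < na σ false by omega), h.ne']

lemma fact_ne {k : ℕ} (hk : k < p) : ((k.factorial : ℕ) : ZMod p) ≠ 0 := by
  rw [Ne, ZMod.natCast_eq_zero_iff, (Fact.out : p.Prime).dvd_factorial]
  omega

/-- Taylor coefficient -/
def tc (p k : ℕ) : ZMod p := ((-1) ^ k * k.factorial)⁻¹

lemma taylor {k : ℕ} (hk : k < p) {F : V → ZMod p} (hF : F ∈ Van (k + 1)) :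
    (F - tc p k • fun x => dd k (fun _ => x) F 0) ∈ (Van k : Submodule (ZMod p) (V → ZMod p)) := by
  have h0 := diag_mem hF k (fun _ => AddMonoidHom.id V) 0
  refine mem_of_top (sub_mem hF (Submodule.smul_mem _ _ h0)) fun w => ?_
  have h1 := top_diag hF (fun _ => AddMonoidHom.id V) w fun _ => true
  have h2 : na (fun _ : Fin k => true) true = k := by simp [na]
  have h3 : na (fun _ : Fin k => true) false = 0 := by simp [na]
  have h4 : (univ.filter fun S : Finset (Fin k) => S.card = k) = {univ} := by
    ext S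
    simpa using S.card_eq_iff_eq_univ
  simp only [h2, h3, h4, AddMonoidHom.id_apply, sum_singleton, top_apply] at h1
  rw [map_sub, map_smul, Pi.sub_apply, Pi.smul_apply, h1, tc, smul_eq_mul]
  have := fact_ne hk
  simp only [Nat.factorial_zero, Nat.cast_one]
  field_simp
  ring

open MvPolynomial in
lemma eval_mem {n : ℕ} (P : MvPolynomial (Fin n) R) {k : ℕ} (hP : P.totalDegree ≤ k) :
    (fun x => eval x P) ∈ (Van (k + 1) : Submodule R ((Fin n → R) → R)) := by
  have h1 : ∀ (s : Finset (Fin n)) (d : Fin n → ℕ), (fun x : Fin n → R => ∏ i ∈ s, x i ^ d i) ∈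
      (Van (∑ i ∈ s, d i + 1) : Submodule R ((Fin n → R) → R)) := by
    intro s d
    induction s using Finset.induction_on with
    | empty => simpa using const_mem (1 : R)
    | insert a s ha ih =>
      simp only [prod_insert ha, sum_insert ha]
      generalize d a = m
      induction m with
      | zero => simpa using ih
      | succ m ih' =>
        have h2 : (fun x : Fin n → R => x a) ∈ (Van (1 + 1) : Submodule R ((Fin n → R) → R)) :=
          mem_Van_succ.2 fun h => by convert const_mem (-h a) using 1; ext; simp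
        convert mul_mem_Van _ _ 1 rfl _ ih' _ h2 using 1
        · congr 1; ring
        · ext; simp; ring
  have h2 : (fun x => eval x P) =
      ∑ d ∈ P.support, P.coeff d • fun x : Fin n → R => ∏ i, x i ^ d i := by
    ext x; simp [eval_eq']
  rw [h2]
  refine sum_mem fun d hd => Submodule.smul_mem _ _ (Van_mono ?_ (h1 univ d))
  have := (le_totalDegree hd).trans hP
  rw [Finsupp.sum_fintype _ _ fun _ => rfl] at this
  omega

open MvPolynomial in
lemma exists_poly {n k : ℕ} (hk : k < p) {F : (Fin n → ZMod p) → ZMod p} (hF : F ∈ Van (k + 1)) :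
    ∃ P : MvPolynomial (Fin n) (ZMod p), P.totalDegree ≤ k ∧ ∀ x, eval x P = F x := by
  induction k generalizing F with
  | zero => exact ⟨C (F 0), by simp, fun x => by simp [eq_of_mem_one hF x]⟩
  | succ k ih =>
    obtain ⟨P, h1, h2⟩ := ih (by omega) (taylor hk hF)
    refine ⟨P + ∑ r : Fin (k + 1) → Fin n, C (tc p (k + 1) * top hF fun i => Pi.single (r i) 1) *
      ∏ i, X (r i), (totalDegree_add _ _).trans (max_le (by omega)
        (totalDegree_finsetSum_le fun r _ => (totalDegree_mul _ _).trans ?_)), fun x => ?_⟩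
    · rw [totalDegree_C]
      simpa using (totalDegree_finsetProd univ fun i => (X (r i) : MvPolynomial (Fin n) (ZMod p)))
    · have h3 : top hF (fun _ => x) = _ := (congrArg (top hF) (funext fun _ => (pi_eq_sum_univ' x))).trans
        ((top hF).map_sum fun _ j => x j • (Pi.single j 1 : Fin n → ZMod p))
      simp only [MultilinearMap.map_smul_univ, top_apply] at h3
      simp only [map_add, h2, map_sum, map_mul, eval_C, map_prod, eval_X, Pi.sub_apply,
        Pi.smul_apply, smul_eq_mul, h3, mul_sum, top_apply]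
      rw [sub_add, sub_eq_self, sub_eq_zero]
      exact sum_congr rfl fun r _ => by ring

end Pool.Agent.Lib.MP_3a84e0_co
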